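import Pool.Agent.H60.Nev.LapCalc

/-!
# Dissipativity of the leafwise Laplacian
-/

open MeasureTheory Set Metric Filter Topology ProbabilityTheory
open scoped ContDiff ENNReal

namespace Pool.Agent.H60.Nev
open Pool.Agent.H45.Nev

variable {M : Type*} [TopologicalSpace M] [MeasurableSpace M] [BorelSpace M]
  {Y : Type*} [NormedAddCommGroup Y] [NormedSpace ℝ Y]

/-- coordinates of a regular point -/
lemma coord {Λ : Lam M Y} {i : Λ.ι} {x : M} (hx : x ∈ (Λ.box i).source) :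
    (Λ.box i x).1 ∈ ball (0 : ℂ) 1 ∧ (Λ.box i x).2 ∈ Λ.W i ∧
      (Λ.box i).symm ((Λ.box i x).1, (Λ.box i x).2) = x := by
  have h1 : Λ.box i x ∈ (Λ.box i).target := (Λ.box i).map_source hx
  have h1' := h1
  rw [Λ.target_eq i] at h1'
  exact ⟨h1'.1, h1'.2, (Λ.box i).left_inv hx⟩

lemma mem_target {Λ : Lam M Y} {i : Λ.ι} {z : ℂ} {t : Y} (hz : z ∈ ball (0 : ℂ) 1)
    (ht : t ∈ Λ.W i) : (z, t) ∈ (Λ.box i).target := by
  rw [Λ.target_eq i]; exact ⟨hz, ht⟩

lemma rho_pos {Λ : Lam M Y} {i : Λ.ι} {z : ℂ} {t : Y} (hz : z ∈ ball (0 : ℂ) 1)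
    (ht : t ∈ Λ.W i) : 0 < Λ.ρ i (z, t) :=
  (Λ.lo_pos i).trans_le (Λ.ρ_lo i _ (mem_target hz ht))

variable {Λ : Lam M Y} {μ : Measure M}

lemma leaf_contDiffAt (TS : TestSys Λ μ) {u : M → ℝ} (hu : u ∈ TS.D) {i : Λ.ι} {t : Y}
    (ht : t ∈ Λ.W i) {z : ℂ} (hz : z ∈ ball (0 : ℂ) 1) :
    ContDiffAt ℝ ∞ (fun z => u ((Λ.box i).symm (z, t))) z :=
  (TS.smooth_leaf u hu i t ht).contDiffAt (isOpen_ball.mem_nhds hz)

lemma two_le_inf : (2 : WithTop ℕ∞) ≤ (∞ : WithTop ℕ∞) := WithTop.coe_le_coe.mpr le_top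

/-- `L u` at a point of a box -/
lemma L_at (TS : TestSys Λ μ) {u : M → ℝ} (hu : u ∈ TS.D) {i : Λ.ι} {x : M}
    (hx : x ∈ (Λ.box i).source) :
    TS.L u x = lap (fun z => u ((Λ.box i).symm (z, (Λ.box i x).2))) (Λ.box i x).1 /
      Λ.ρ i (Λ.box i x) := by
  obtain ⟨h1, h2, h3⟩ := coord hx
  have h4 := TS.L_eq u hu i _ h2 _ h1
  rw [h3] at h4
  have h5 := rho_pos (Λ := Λ) (i := i) h1 h2
  rw [h4]
  field_simp

lemma L_add_mul (TS : TestSys Λ μ) {u v : M → ℝ} (hu : u ∈ TS.D) (hv : v ∈ TS.D) (c : ℝ) (x : M) :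
    TS.L (fun x => u x + c * v x) x = TS.L u x + c * TS.L v x := by
  by_cases hx : x ∈ Λ.reg
  · obtain ⟨i, hi⟩ := mem_iUnion.mp hx
    obtain ⟨h1, h2, h3⟩ := coord hi
    rw [L_at TS (TS.lin u hu v hv c) hi, L_at TS hu hi, L_at TS hv hi,
      lap_add_mul ((leaf_contDiffAt TS hu h2 h1).of_le two_le_inf)
        ((leaf_contDiffAt TS hv h2 h1).of_le two_le_inf)]
    ring
  · rw [TS.L_zero _ (TS.lin u hu v hv c) x hx, TS.L_zero _ hu x hx, TS.L_zero _ hv x hx]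
    ring

lemma zero_mem (TS : TestSys Λ μ) : (fun _ => (0 : ℝ)) ∈ TS.D := by
  have := TS.lin _ TS.one_mem _ TS.one_mem (-1)
  simpa using this

lemma L_zero_fun (TS : TestSys Λ μ) (x : M) : TS.L (fun _ => (0 : ℝ)) x = 0 := by
  have := L_add_mul TS TS.one_mem TS.one_mem (-1) x
  have h2 : (fun _ : M => (1 : ℝ) + -1 * 1) = fun _ => 0 := by ext; norm_num
  rw [h2] at this
  rw [this]; ring

lemma L_sum (TS : TestSys Λ μ) {n : ℕ} (w : Fin n → M → ℝ) (hw : ∀ k, w k ∈ TS.D)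
    (s : Finset (Fin n)) : (fun x => ∑ k ∈ s, w k x) ∈ TS.D ∧
      ∀ x, TS.L (fun x => ∑ k ∈ s, w k x) x = ∑ k ∈ s, TS.L (w k) x := by
  classical
  induction s using Finset.induction_on with
  | empty => exact ⟨by simpa using zero_mem TS, fun x => by simpa using L_zero_fun TS x⟩
  | insert a s ha ih =>
    have h1 : (fun x => ∑ k ∈ insert a s, w k x) = fun x => w a x + 1 * ∑ k ∈ s, w k x := by
      ext x; rw [Finset.sum_insert ha]; ring
    rw [h1]
    refine ⟨TS.lin _ (hw a) _ ih.1 1, fun x => ?_⟩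
    rw [L_add_mul TS (hw a) ih.1 1 x, ih.2 x, Finset.sum_insert ha]; ring

/-- locality of `L` -/
lemma L_zero_of_eventually (TS : TestSys Λ μ) {u : M → ℝ} (hu : u ∈ TS.D) {x : M}
    (h : ∀ᶠ y in 𝓝 x, u y = 0) : TS.L u x = 0 := by
  by_cases hx : x ∈ Λ.reg
  · obtain ⟨i, hi⟩ := mem_iUnion.mp hx
    obtain ⟨h1, h2, h3⟩ := coord hi
    rw [L_at TS hu hi, lap_zero_of_eventually, zero_div]
    have hc : ContinuousAt (fun z : ℂ => (Λ.box i).symm (z, (Λ.box i x).2)) (Λ.box i x).1 := by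
      have h4 := (Λ.box i).continuousAt_symm (mem_target h1 h2)
      exact ContinuousAt.comp (f := fun z : ℂ => (z, (Λ.box i x).2)) (g := (Λ.box i).symm) h4
        (by fun_prop)
    have h5 := hc.eventually (p := fun y => u y = 0)
      (show ∀ᶠ y in 𝓝 ((Λ.box i).symm ((Λ.box i x).1, (Λ.box i x).2)), u y = 0 by rw [h3]; exact h)
    filter_upwards [h5] with z hz using hz
  · exact TS.L_zero u hu x hx

/-- the pointwise inequality `β(u) L u ≤ L (F ∘ u)` -/
lemma L_comp_ge (TS : TestSys Λ μ) {u : M → ℝ} (hu : u ∈ TS.D) {F : ℝ → ℝ} (hF : ContDiff ℝ ∞ F)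
    (hmono : Monotone (deriv F)) (x : M) :
    deriv F (u x) * TS.L u x ≤ TS.L (fun x => F (u x)) x := by
  by_cases hx : x ∈ Λ.reg
  · obtain ⟨i, hi⟩ := mem_iUnion.mp hx
    obtain ⟨h1, h2, h3⟩ := coord hi
    have h5 := rho_pos (Λ := Λ) (i := i) h1 h2
    rw [L_at TS (TS.comp u hu F hF) hi, L_at TS hu hi,
      lap_comp_real ((leaf_contDiffAt TS hu h2 h1).of_le two_le_inf) (hF.of_le two_le_inf), h3]
    have h6 : 0 ≤ deriv (deriv F) (u x) := hmono.deriv_nonneg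
    rw [← mul_div_assoc]
    apply div_le_div_of_nonneg_right _ h5.le
    have h7 := mul_nonneg h6 (add_nonneg
      (sq_nonneg (fderiv ℝ (fun z => u ((Λ.box i).symm (z, (Λ.box i x).2))) (Λ.box i x).1 1))
      (sq_nonneg (fderiv ℝ (fun z => u ((Λ.box i).symm (z, (Λ.box i x).2)))
        (Λ.box i x).1 Complex.I)))
    linarith
  · rw [TS.L_zero _ (TS.comp u hu F hF) x hx, TS.L_zero _ hu x hx]
    simp

/-- Q3a. Dissipativity. -/
theorem dissipative [IsFiniteMeasure μ] (TS : TestSys Λ μ)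
    (u : M → ℝ) (hu : u ∈ TS.D) (β : ℝ → ℝ) (hβ : ContDiff ℝ ∞ β) (hmono : Monotone β)
    (hb : ∀ x, |β x| ≤ 1) : ∫ x, β (u x) * TS.L u x ∂μ ≤ 0 := by
  set F : ℝ → ℝ := fun x => ∫ t in (0 : ℝ)..x, β t with hFdef
  have hd : deriv F = β := by
    ext x
    exact (hβ.continuous.deriv_integral β 0 x)
  have hFd : Differentiable ℝ F := by
    intro x
    exact (intervalIntegral.integral_hasDerivAt_right (hβ.continuous.intervalIntegrable _ _)
      hβ.continuous.stronglyMeasurable.stronglyMeasurableAtFilter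
      hβ.continuous.continuousAt).differentiableAt
  have hF : ContDiff ℝ ∞ F := by
    rw [contDiff_infty_iff_deriv, hd]
    exact ⟨hFd, hβ⟩
  have hmeas : ∀ v ∈ TS.D, Integrable (TS.L v) μ := by
    intro v hv
    obtain ⟨C, hC⟩ := TS.L_bdd v hv
    exact Integrable.of_bound (TS.L_meas v hv).aestronglyMeasurable C
      (Filter.Eventually.of_forall fun x => by simpa using hC x)
  have h1 : Integrable (fun x => β (u x) * TS.L u x) μ := by
    refine (hmeas u hu).bdd_mul (c := 1) ?_ ?_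
    · exact (hβ.continuous.comp (TS.cont u hu)).measurable.aestronglyMeasurable
    · exact Filter.Eventually.of_forall fun x => by simpa using hb (u x)
  calc ∫ x, β (u x) * TS.L u x ∂μ ≤ ∫ x, TS.L (fun x => F (u x)) x ∂μ := by
        apply integral_mono h1 (hmeas _ (TS.comp u hu F hF))
        intro x
        have := L_comp_ge TS hu hF (by rw [hd]; exact hmono) x
        rw [hd] at this
        exact this
    _ = 0 := TS.integral_L _ (TS.comp u hu F hF)

end Pool.Agent.H60.Nev
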