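import Pool.Agent.H60.Nev.Range

open MeasureTheory Set Metric Filter Topology ProbabilityTheory
open scoped ContDiff ENNReal

namespace Pool.Agent.H60.Nev.Q3
open Pool.Agent.H45.Nev

variable {M : Type*} [TopologicalSpace M] [T2Space M] [MeasurableSpace M] [BorelSpace M]
  [Nonempty M]
  {Y : Type*} [NormedAddCommGroup Y] [NormedSpace ℝ Y] [FiniteDimensional ℝ Y]
  [MeasurableSpace Y] [BorelSpace Y]

/-- Q3a. Dissipativity. -/
theorem dissipative (Λ : Lam M Y) (μ : Measure M) [IsFiniteMeasure μ] (TS : TestSys Λ μ)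
    (u : M → ℝ) (hu : u ∈ TS.D) (β : ℝ → ℝ) (hβ : ContDiff ℝ (∞ : WithTop ℕ∞) β)
    (hmono : Monotone β)
    (hb : ∀ x, |β x| ≤ 1) : ∫ x, β (u x) * TS.L u x ∂μ ≤ 0 :=
  Pool.Agent.H60.Nev.dissipative TS u hu β hβ hmono hb

/-- Q3b. Density of the range of `lam - L`. -/
theorem range_dense (Λ : Lam M Y) (μ : Measure M) [IsFiniteMeasure μ] (TS : TestSys Λ μ)
    (dis : ∀ i, Disint Λ μ i) (lam : ℝ) (hlam : 0 < lam) (γ : M → ℝ) (hγ : Measurable γ)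
    (hb : ∃ C, ∀ x, |γ x| ≤ C)
    (h : ∀ u ∈ TS.D, ∫ x, γ x * (lam * u x - TS.L u x) ∂μ = 0) : γ =ᵐ[μ] 0 :=
  Pool.Agent.H60.Nev.range_dense TS dis lam hlam γ hγ hb h

end Pool.Agent.H60.Nev.Q3
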