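import Pool.Agent.H45.Nev.TestSys

/-!
# Calculus of the flat Laplacian
-/

open MeasureTheory Set Metric Filter Topology
open scoped ContDiff

namespace Pool.Agent.H60.Nev
open Pool.Agent.H45.Nev

lemma lap_congr {f g : ℂ → ℝ} {z : ℂ} (h : f =ᶠ[𝓝 z] g) : lap f z = lap g z := by
  unfold lap
  rw [(h.fderiv).fderiv_eq]

lemma lap_const (c : ℝ) (z : ℂ) : lap (fun _ => c) z = 0 := by
  simp [lap]

lemma lap_zero_of_eventually {f : ℂ → ℝ} {z : ℂ} (h : f =ᶠ[𝓝 z] fun _ => 0) : lap f z = 0 := by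
  rw [lap_congr h, lap_const]

lemma lap_add_mul {f g : ℂ → ℝ} {z : ℂ} (hf : ContDiffAt ℝ 2 f z) (hg : ContDiffAt ℝ 2 g z)
    (c : ℝ) : lap (fun z => f z + c * g z) z = lap f z + c * lap g z := by
  have hf1 : ∀ᶠ y in 𝓝 z, ContDiffAt ℝ 2 f y := hf.eventually (by simp)
  have hg1 : ∀ᶠ y in 𝓝 z, ContDiffAt ℝ 2 g y := hg.eventually (by simp)
  have hev : fderiv ℝ (fun z => f z + c * g z) =ᶠ[𝓝 z] fun y => fderiv ℝ f y + c • fderiv ℝ g y := by
    filter_upwards [hf1, hg1] with y h1 h2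
    have h3 := (h1.differentiableAt (by norm_num)).hasFDerivAt
    have h4 := (h2.differentiableAt (by norm_num)).hasFDerivAt
    exact (h3.add (h4.const_mul c)).fderiv
  have h5 : DifferentiableAt ℝ (fderiv ℝ f) z :=
    (hf.fderiv_right (m := 1) (by norm_num)).differentiableAt (by norm_num)
  have h6 : DifferentiableAt ℝ (fderiv ℝ g) z :=
    (hg.fderiv_right (m := 1) (by norm_num)).differentiableAt (by norm_num)
  have h7 : fderiv ℝ (fderiv ℝ (fun z => f z + c * g z)) z =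
      fderiv ℝ (fderiv ℝ f) z + c • fderiv ℝ (fderiv ℝ g) z := by
    rw [hev.fderiv_eq]
    exact (h5.hasFDerivAt.add (h6.hasFDerivAt.const_smul c)).fderiv
  unfold lap
  rw [h7]
  simp
  ring

lemma lap_comp_real {f : ℂ → ℝ} {z : ℂ} (hf : ContDiffAt ℝ 2 f z) {F : ℝ → ℝ}
    (hF : ContDiff ℝ 2 F) :
    lap (fun z => F (f z)) z = deriv F (f z) * lap f z +
      deriv (deriv F) (f z) * ((fderiv ℝ f z 1) ^ 2 + (fderiv ℝ f z Complex.I) ^ 2) := by
  have hf1 : ∀ᶠ y in 𝓝 z, ContDiffAt ℝ 2 f y := hf.eventually (by simp)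
  have hF1 : Differentiable ℝ F := hF.differentiable (by norm_num)
  have hF2 : Differentiable ℝ (deriv F) := by
    have : ContDiff ℝ 1 (deriv F) := (contDiff_succ_iff_deriv.mp hF).2.2
    exact this.differentiable (by norm_num)
  have hev : fderiv ℝ (fun z => F (f z)) =ᶠ[𝓝 z] fun y => deriv F (f y) • fderiv ℝ f y := by
    filter_upwards [hf1] with y h1
    have h3 := (h1.differentiableAt (by norm_num)).hasFDerivAt
    have h4 := (hF1 (f y)).hasDerivAt
    exact (h4.comp_hasFDerivAt y h3).fderiv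
  have h5 : DifferentiableAt ℝ (fderiv ℝ f) z :=
    (hf.fderiv_right (m := 1) (by norm_num)).differentiableAt (by norm_num)
  have h6 : HasFDerivAt (fun y => deriv F (f y)) (deriv (deriv F) (f z) • fderiv ℝ f z) z :=
    (hF2 (f z)).hasDerivAt.comp_hasFDerivAt z (hf.differentiableAt (by norm_num)).hasFDerivAt
  have h7 := (h6.smul h5.hasFDerivAt).fderiv
  unfold lap
  rw [hev.fderiv_eq]
  have h8 : (fun y => deriv F (f y) • fderiv ℝ f y) = ((fun y => deriv F (f y)) • fderiv ℝ f) := rfl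
  rw [h8, h7]
  simp
  ring

end Pool.Agent.H60.Nev
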