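import Pool.Agent.H60.Nev.Diss
import Pool.Agent.H59.Nev.Kato

/-!
# Density of the range of `lam - L`
-/

open MeasureTheory Set Metric Filter Topology ProbabilityTheory
open scoped ContDiff

namespace Pool.Agent.H60.Nev
open Pool.Agent.H45.Nev

variable {M : Type*} [TopologicalSpace M] [T2Space M] [MeasurableSpace M] [BorelSpace M]
  {Y : Type*} [NormedAddCommGroup Y] [NormedSpace ℝ Y] [FiniteDimensional ℝ Y]
  [MeasurableSpace Y] [BorelSpace Y]

section basic

variable {Λ : Lam M Y}

lemma isOpen_W (Λ : Lam M Y) (i : Λ.ι) : IsOpen (Λ.W i) := by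
  have h := (Λ.box i).open_target
  rw [Λ.target_eq i, isOpen_prod_iff'] at h
  rcases h with h | h | h
  · exact h.2
  · exact absurd h (Metric.nonempty_ball.mpr one_pos).ne_empty
  · rw [h]; exact isOpen_empty

/-- a measurable function read in a box, extended by zero, is measurable -/
lemma measurable_ind (i : Λ.ι) {g : M → ℝ} (hg : Measurable g) :
    Measurable ((Λ.box i).target.indicator (fun p => g ((Λ.box i).symm p))) := by
  have ht : MeasurableSet (Λ.box i).target := (Λ.box i).open_target.measurableSet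
  refine measurable_of_restrict_of_restrict_compl ht ?_ ?_
  · have h1 : (Λ.box i).target.domRestrict ((Λ.box i).target.indicator
        (fun p => g ((Λ.box i).symm p))) =
        g ∘ ((Λ.box i).target.domRestrict (Λ.box i).symm) := by
      ext ⟨p, hp⟩
      simp [Set.indicator_of_mem hp]
    rw [h1]
    exact hg.comp (continuousOn_iff_continuous_domRestrict.mp (Λ.box i).continuousOn_symm).measurable
  · have h1 : ((Λ.box i).target)ᶜ.domRestrict ((Λ.box i).target.indicator
        (fun p => g ((Λ.box i).symm p))) = fun _ => 0 := by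
      ext ⟨p, hp⟩
      simp only [Set.domRestrict_apply]
      exact Set.indicator_of_notMem hp _
    rw [h1]
    exact measurable_const

lemma measurable_rho_ind (i : Λ.ι) :
    Measurable ((Λ.box i).target.indicator (Λ.ρ i)) := by
  have ht : MeasurableSet (Λ.box i).target := (Λ.box i).open_target.measurableSet
  refine measurable_of_restrict_of_restrict_compl ht ?_ ?_
  · have h1 : (Λ.box i).target.domRestrict ((Λ.box i).target.indicator (Λ.ρ i)) =
        (Λ.box i).target.domRestrict (Λ.ρ i) := by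
      ext ⟨p, hp⟩
      simp [Set.indicator_of_mem hp]
    rw [h1]
    exact (continuousOn_iff_continuous_domRestrict.mp (Λ.ρ_cont i)).measurable
  · have h1 : ((Λ.box i).target)ᶜ.domRestrict ((Λ.box i).target.indicator (Λ.ρ i)) = fun _ => 0 := by
      ext ⟨p, hp⟩
      simp only [Set.domRestrict_apply]
      exact Set.indicator_of_notMem hp _
    rw [h1]
    exact measurable_const

lemma rho_cont_slice {i : Λ.ι} {t : Y} (ht : t ∈ Λ.W i) :
    ContinuousOn (fun z => Λ.ρ i (z, t)) (ball (0 : ℂ) 1) :=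
  (Λ.ρ_cont i).comp (by fun_prop) fun z hz => mem_target hz ht

end basic

/-- the good fibres of a disintegration -/
def Good {Λ : Lam M Y} {μ : Measure M} {i : Λ.ι} (d : Disint Λ μ i) (t : Y) : Prop :=
  t ∈ Λ.W i ∧ Measurable (d.h t) ∧ ContinuousOn (d.h t) (ball 0 1) ∧
    (∀ z ∈ ball (0 : ℂ) 1, 0 < d.h t z) ∧
    d.κ t = (volume.restrict (ball (0 : ℂ) 1)).withDensity
      (fun z => ENNReal.ofReal (Λ.ρ i (z, t) * d.h t z))

section fibre

variable {Λ : Lam M Y} {μ : Measure M} {i : Λ.ι} {d : Disint Λ μ i} {t : Y}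

lemma Good.aemeas (ht : Good d t) : AEMeasurable (fun z => Λ.ρ i (z, t) * d.h t z)
    (volume.restrict (ball (0 : ℂ) 1)) :=
  ((rho_cont_slice ht.1).aemeasurable measurableSet_ball).mul ht.2.1.aemeasurable

lemma Good.integral (ht : Good d t) (g : ℂ → ℝ) :
    ∫ z, g z ∂(d.κ t) = ∫ z in ball (0 : ℂ) 1, Λ.ρ i (z, t) * d.h t z * g z := by
  rw [ht.2.2.2.2, integral_withDensity_eq_integral_toReal_smul₀ ht.aemeas.ennreal_ofReal
    (Filter.Eventually.of_forall fun _ => ENNReal.ofReal_lt_top)]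
  apply setIntegral_congr_fun measurableSet_ball
  intro z hz
  simp only [smul_eq_mul]
  rw [ENNReal.toReal_ofReal (mul_nonneg (rho_pos hz ht.1).le (ht.2.2.2.1 z hz).le)]

lemma Good.ae_mem (ht : Good d t) : ∀ᵐ z ∂(d.κ t), z ∈ ball (0 : ℂ) 1 := by
  rw [ht.2.2.2.2]
  exact (withDensity_absolutelyContinuous _ _).ae_le (ae_restrict_mem measurableSet_ball)

lemma Good.integrable_mul (ht : Good d t) :
    IntegrableOn (fun z => Λ.ρ i (z, t) * d.h t z) (ball (0 : ℂ) 1) := by
  have := d.κ_markov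
  refine ⟨ht.aemeas.aestronglyMeasurable, ?_⟩
  rw [hasFiniteIntegral_iff_ofReal]
  · have h1 : (d.κ t) univ = 1 := measure_univ
    rw [ht.2.2.2.2, withDensity_apply _ MeasurableSet.univ, Measure.restrict_univ] at h1
    rw [h1]
    exact ENNReal.one_lt_top
  · filter_upwards [ae_restrict_mem measurableSet_ball] with z hz
    exact mul_nonneg (rho_pos hz ht.1).le (ht.2.2.2.1 z hz).le

lemma Good.integrable_h (ht : Good d t) : IntegrableOn (d.h t) (ball (0 : ℂ) 1) := by
  have h1 := ht.integrable_mul.mul_const (1 / Λ.lo i)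
  refine Integrable.mono' h1 ht.2.1.aestronglyMeasurable ?_
  filter_upwards [ae_restrict_mem measurableSet_ball] with z hz
  have h2 := Λ.ρ_lo i _ (mem_target hz ht.1)
  have h3 := Λ.lo_pos i
  have h4 := ht.2.2.2.1 z hz
  rw [Real.norm_eq_abs, abs_of_pos h4, mul_one_div, le_div_iff₀ h3]
  nlinarith

end fibre

section main

variable {Λ : Lam M Y} {μ : Measure M} [IsFiniteMeasure μ]

/-- the product test functions and their Laplacians -/
lemma prod_test (TS : TestSys Λ μ) (i : Λ.ι) {v : ℂ → ℝ} (hv : ContDiff ℝ ∞ v)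
    (hvc : HasCompactSupport v) (hvs : tsupport v ⊆ ball 0 1) {w : Y → ℝ} (hw : ContDiff ℝ ∞ w)
    (hwc : HasCompactSupport w) (hws : tsupport w ⊆ Λ.W i) :
    ∃ u ∈ TS.D, (∀ t ∈ Λ.W i, ∀ z ∈ ball (0 : ℂ) 1, u ((Λ.box i).symm (z, t)) = v z * w t ∧
        TS.L u ((Λ.box i).symm (z, t)) = w t * (lap v z / Λ.ρ i (z, t))) ∧
      ∀ x ∉ (Λ.box i).source, u x = 0 ∧ TS.L u x = 0 := by
  obtain ⟨u, huD, hu1, hu2⟩ := TS.prod i v hv hvc hvs w hw hwc hws
  have hsub : tsupport v ×ˢ tsupport w ⊆ (Λ.box i).target := by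
    rw [Λ.target_eq i]; exact Set.prod_mono hvs hws
  have hval : ∀ t ∈ Λ.W i, ∀ z ∈ ball (0 : ℂ) 1, u ((Λ.box i).symm (z, t)) = v z * w t := by
    intro t ht z hz
    have h1 := mem_target (Λ := Λ) (i := i) hz ht
    rw [hu1 _ ((Λ.box i).map_target h1), (Λ.box i).right_inv h1]
  refine ⟨u, huD, fun t ht z hz => ⟨hval t ht z hz, ?_⟩, fun x hx => ⟨hu2 x hx, ?_⟩⟩
  · have h1 := mem_target (Λ := Λ) (i := i) hz ht
    have h2 := L_at TS huD ((Λ.box i).map_target h1)
    rw [(Λ.box i).right_inv h1] at h2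
    rw [h2]
    have h3 : lap (fun z' => u ((Λ.box i).symm (z', t))) z = w t * lap v z := by
      have h4 : (fun z' => u ((Λ.box i).symm (z', t))) =ᶠ[𝓝 z] fun z' => 0 + w t * v z' := by
        filter_upwards [isOpen_ball.mem_nhds hz] with z' hz'
        rw [hval t ht z' hz']; ring
      rw [lap_congr h4, lap_add_mul contDiffAt_const (hv.contDiffAt.of_le two_le_inf), lap_const]
      ring
    rw [h3]; ring
  · set K := (Λ.box i).symm '' (tsupport v ×ˢ tsupport w) with hK
    have hKc : IsCompact K :=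
      (hvc.isCompact.prod hwc.isCompact).image_of_continuousOn
        ((Λ.box i).continuousOn_symm.mono hsub)
    have hKs : K ⊆ (Λ.box i).source := by
      rintro _ ⟨p, hp, rfl⟩
      exact (Λ.box i).map_target (hsub hp)
    apply L_zero_of_eventually TS huD
    have hxK : x ∉ K := fun h => hx (hKs h)
    filter_upwards [hKc.isClosed.isOpen_compl.mem_nhds hxK] with y hy
    by_cases hys : y ∈ (Λ.box i).source
    · rw [hu1 y hys]
      by_contra hne
      apply hy
      refine ⟨Λ.box i y, ⟨?_, ?_⟩, (Λ.box i).left_inv hys⟩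
      · exact subset_tsupport _ (left_ne_zero_of_mul hne)
      · exact subset_tsupport _ (right_ne_zero_of_mul hne)
    · exact hu2 y hys

/-- the weak equation on almost every fibre, one test function -/
lemma fibre_eq (TS : TestSys Λ μ) {i : Λ.ι} (d : Disint Λ μ i) (lam : ℝ) (γ : M → ℝ)
    (hγ : Measurable γ) (hb : ∃ C, ∀ x, |γ x| ≤ C)
    (h : ∀ u ∈ TS.D, ∫ x, γ x * (lam * u x - TS.L u x) ∂μ = 0) {v : ℂ → ℝ}
    (hv : ContDiff ℝ ∞ v) (hvc : HasCompactSupport v) (hvs : tsupport v ⊆ ball 0 1) :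
    ∀ᵐ t ∂d.ν, Good d t → ∫ z in ball (0 : ℂ) 1, (d.h t z * γ ((Λ.box i).symm (z, t))) *
      (lam * Λ.ρ i (z, t) * v z - lap v z) = 0 := by
  have := d.κ_markov
  have := d.ν_fin
  obtain ⟨C, hC⟩ := hb
  -- the kernel integrand
  set A : ℂ × Y → ℝ := fun p =>
    (Λ.box i).target.indicator (fun p => γ ((Λ.box i).symm p)) p *
      (lam * v p.1 - lap v p.1 / (Λ.box i).target.indicator (Λ.ρ i) p) with hA
  have hAm : Measurable A := by
    refine (measurable_ind i hγ).mul ((measurable_const.mul ?_).sub (Measurable.div ?_ ?_))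
    · exact hv.continuous.measurable.comp measurable_fst
    · exact (Pool.Agent.H59.Nev.lap_continuous hv).measurable.comp measurable_fst
    · exact measurable_rho_ind i
  have hAeq : ∀ t ∈ Λ.W i, ∀ z ∈ ball (0 : ℂ) 1, A (z, t) = γ ((Λ.box i).symm (z, t)) *
      (lam * v z - lap v z / Λ.ρ i (z, t)) := by
    intro t ht z hz
    simp only [hA, Set.indicator_of_mem (mem_target (Λ := Λ) (i := i) hz ht)]
  -- bound for A
  obtain ⟨C1, hC1⟩ := hv.continuous.bounded_above_of_compact_support hvc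
  obtain ⟨C2, hC2⟩ := (Pool.Agent.H59.Nev.lap_continuous hv).bounded_above_of_compact_support
    (Pool.Agent.H59.Nev.lap_hcs hv hvc)
  have hAb : ∀ p, ‖A p‖ ≤ |C| * (|lam| * |C1| + |C2| / Λ.lo i) := by
    intro p
    have hlo := Λ.lo_pos i
    by_cases hp : p ∈ (Λ.box i).target
    · simp only [hA, Set.indicator_of_mem hp, norm_mul, Real.norm_eq_abs]
      apply mul_le_mul ((hC _).trans (le_abs_self C)) _ (abs_nonneg _) (abs_nonneg _)
      refine (abs_sub _ _).trans ?_
      rw [abs_mul, abs_div]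
      have h1 := Λ.ρ_lo i p hp
      have h2 : |Λ.ρ i p| = Λ.ρ i p := abs_of_pos (hlo.trans_le h1)
      have h3 : |v p.1| ≤ |C1| := by
        have := hC1 p.1
        rw [Real.norm_eq_abs] at this
        exact this.trans (le_abs_self _)
      have h4 : |lap v p.1| ≤ |C2| := by
        have := hC2 p.1
        rw [Real.norm_eq_abs] at this
        exact this.trans (le_abs_self _)
      rw [h2]
      apply add_le_add
      · exact mul_le_mul_of_nonneg_left h3 (abs_nonneg _)
      · exact div_le_div₀ (abs_nonneg _) h4 hlo h1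
    · simp only [hA, Set.indicator_of_notMem hp, zero_mul, norm_zero]
      positivity
  set Φ : Y → ℝ := fun t => ∫ z, A (z, t) ∂(d.κ t) with hΦ
  have hΦm : StronglyMeasurable Φ :=
    StronglyMeasurable.integral_kernel_prod_right' (κ := d.κ) (f := fun q : Y × ℂ => A (q.2, q.1))
      (hAm.comp measurable_swap).stronglyMeasurable
  have hΦb : ∀ t, ‖Φ t‖ ≤ |C| * (|lam| * |C1| + |C2| / Λ.lo i) := by
    intro t
    have h1 := norm_integral_le_of_norm_le_const (μ := d.κ t) (f := fun z => A (z, t))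
      (Filter.Eventually.of_forall fun z => hAb (z, t))
    simpa using h1
  have hΦi : Integrable Φ d.ν :=
    Integrable.of_bound hΦm.aestronglyMeasurable _ (Filter.Eventually.of_forall hΦb)
  have hgood : ∀ᵐ t ∂d.ν, Good d t := d.good
  have hz : ∀ᵐ t ∂d.ν, t ∈ Λ.W i → Φ t = 0 := by
    refine IsOpen.ae_eq_zero_of_integral_contDiff_smul_eq_zero (isOpen_W Λ i)
      (hΦi.locallyIntegrable.locallyIntegrableOn _) ?_
    intro w hw hwc hws
    obtain ⟨u, huD, hu1, hu2⟩ := prod_test TS i hv hvc hvs hw hwc hws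
    set f : M → ℝ := fun x => γ x * (lam * u x - TS.L u x) with hf
    have hfm : Measurable f := hγ.mul
      ((measurable_const.mul (TS.cont u huD).measurable).sub (TS.L_meas u huD))
    have hfb : ∃ C, ∀ x, |f x| ≤ C := by
      obtain ⟨D1, hD1⟩ := TS.bdd u huD
      obtain ⟨D2, hD2⟩ := TS.L_bdd u huD
      refine ⟨|C| * (|lam| * D1 + D2), fun x => ?_⟩
      rw [hf]; simp only [abs_mul]
      apply mul_le_mul ((hC x).trans (le_abs_self C)) _ (abs_nonneg _) (abs_nonneg _)
      refine (abs_sub _ _).trans ?_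
      rw [abs_mul]
      exact add_le_add (mul_le_mul_of_nonneg_left (hD1 x) (abs_nonneg _)) (hD2 x)
    have h1 : ∫ x in (Λ.box i).source, f x ∂μ = 0 := by
      rw [setIntegral_eq_integral_of_forall_compl_eq_zero]
      · exact h u huD
      · intro x hx
        obtain ⟨h2, h3⟩ := hu2 x hx
        simp only [hf, h2, h3]; ring
    rw [d.integral_eq f hfm hfb] at h1
    rw [← h1]
    apply integral_congr_ae
    filter_upwards [hgood] with t ht
    rw [hΦ, smul_eq_mul, ← integral_const_mul]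
    apply integral_congr_ae
    filter_upwards [ht.ae_mem] with z hz
    obtain ⟨h2, h3⟩ := hu1 t ht.1 z hz
    simp only [hf]
    rw [h2, h3, hAeq t ht.1 z hz]
    ring
  filter_upwards [hz] with t ht hg
  have h1 := ht hg.1
  rw [hΦ] at h1
  simp only at h1
  rw [hg.integral] at h1
  rw [← h1]
  apply setIntegral_congr_fun measurableSet_ball
  intro z hz
  simp only
  rw [hAeq t hg.1 z hz]
  have h2 := rho_pos (Λ := Λ) (i := i) hz hg.1
  field_simp

/-- Kato's inequality on almost every fibre -/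
lemma fibre_kato (TS : TestSys Λ μ) {i : Λ.ι} (d : Disint Λ μ i) (lam : ℝ) (hlam : 0 ≤ lam)
    (γ : M → ℝ) (hγ : Measurable γ) (hb : ∃ C, ∀ x, |γ x| ≤ C)
    (h : ∀ u ∈ TS.D, ∫ x, γ x * (lam * u x - TS.L u x) ∂μ = 0) :
    ∀ᵐ t ∂d.ν, Good d t ∧ ∀ v : ℂ → ℝ, ContDiff ℝ ∞ v → HasCompactSupport v →
      tsupport v ⊆ ball 0 1 → (∀ z, 0 ≤ v z) →
      lam * ∫ z in ball (0 : ℂ) 1, |d.h t z * γ ((Λ.box i).symm (z, t))| *
          (Λ.ρ i (z, t) * v z) ≤
        ∫ z in ball (0 : ℂ) 1, |d.h t z * γ ((Λ.box i).symm (z, t))| * lap v z := by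
  obtain ⟨V, hVc, hVp, hV⟩ := Pool.Agent.H59.Nev.kato
  have h1 : ∀ᵐ t ∂d.ν, ∀ v ∈ V, Good d t → ∫ z in ball (0 : ℂ) 1,
      (d.h t z * γ ((Λ.box i).symm (z, t))) * (lam * Λ.ρ i (z, t) * v z - lap v z) = 0 := by
    rw [ae_ball_iff hVc]
    intro v hv
    obtain ⟨h2, h3, h4⟩ := hVp v hv
    exact fibre_eq TS d lam γ hγ hb h h2 h3 h4
  have hgood : ∀ᵐ t ∂d.ν, Good d t := d.good
  filter_upwards [h1, hgood] with t ht hg
  refine ⟨hg, fun v hv hvc hvs hv0 => ?_⟩
  obtain ⟨C, hC⟩ := hb
  set m : ℂ → ℝ := fun z => d.h t z *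
    (Λ.box i).target.indicator (fun p => γ ((Λ.box i).symm p)) (z, t) with hm
  set r : ℂ → ℝ := fun z => (Λ.box i).target.indicator (Λ.ρ i) (z, t) with hr
  have hpair : Measurable (fun z : ℂ => (z, t)) := by fun_prop
  have hmm : Measurable m := hg.2.1.mul ((measurable_ind i hγ).comp hpair)
  have hrm : Measurable r := (measurable_rho_ind i).comp hpair
  have hme : ∀ z ∈ ball (0 : ℂ) 1, m z = d.h t z * γ ((Λ.box i).symm (z, t)) := by
    intro z hz
    simp only [hm, Set.indicator_of_mem (mem_target (Λ := Λ) (i := i) hz hg.1)]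
  have hre : ∀ z ∈ ball (0 : ℂ) 1, r z = Λ.ρ i (z, t) := by
    intro z hz
    simp only [hr, Set.indicator_of_mem (mem_target (Λ := Λ) (i := i) hz hg.1)]
  have hmb : ∀ z ∈ ball (0 : ℂ) 1, |m z| ≤ |C| * d.h t z := by
    intro z hz
    rw [hme z hz, abs_mul, abs_of_pos (hg.2.2.2.1 z hz), mul_comm]
    exact mul_le_mul_of_nonneg_right ((hC _).trans (le_abs_self C)) (hg.2.2.2.1 z hz).le
  have hmi : IntegrableOn m (ball 0 1) := by
    refine Integrable.mono' (hg.integrable_h.const_mul |C|) hmm.aestronglyMeasurable ?_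
    filter_upwards [ae_restrict_mem measurableSet_ball] with z hz
    rw [Real.norm_eq_abs]
    exact hmb z hz
  have hmloc : ∀ r < 1, ∃ C, ∀ z ∈ ball (0 : ℂ) r, |m z| ≤ C := by
    intro r hr1
    have h2 : closedBall (0 : ℂ) r ⊆ ball 0 1 := closedBall_subset_ball hr1
    obtain ⟨C', hC'⟩ := (isCompact_closedBall (0 : ℂ) r).exists_bound_of_continuousOn
      (hg.2.2.1.mono h2)
    refine ⟨|C| * C', fun z hz => ?_⟩
    have hz1 := ball_subset_closedBall hz
    refine (hmb z (h2 hz1)).trans (mul_le_mul_of_nonneg_left ?_ (abs_nonneg _))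
    exact (le_abs_self _).trans (hC' z hz1)
  have hrb : ∀ z ∈ ball (0 : ℂ) 1, 0 ≤ r z ∧ r z ≤ Λ.hi i := by
    intro z hz
    rw [hre z hz]
    exact ⟨(rho_pos hz hg.1).le, Λ.ρ_hi i _ (mem_target hz hg.1)⟩
  have hV0 : ∀ v ∈ V, ∫ z in ball (0 : ℂ) 1, m z * (lam * r z * v z - lap v z) = 0 := by
    intro v hv
    rw [← ht v hv hg]
    apply setIntegral_congr_fun measurableSet_ball
    intro z hz
    simp only
    rw [hme z hz, hre z hz]
  have key := hV m r lam (Λ.hi i) hmm hrm hlam hmi hmloc hrb hV0 v hv hvc hvs hv0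
  have e1 : ∫ z in ball (0 : ℂ) 1, |m z| * (r z * v z) =
      ∫ z in ball (0 : ℂ) 1, |d.h t z * γ ((Λ.box i).symm (z, t))| * (Λ.ρ i (z, t) * v z) := by
    apply setIntegral_congr_fun measurableSet_ball
    intro z hz
    simp only
    rw [hme z hz, hre z hz]
  have e2 : ∫ z in ball (0 : ℂ) 1, |m z| * lap v z =
      ∫ z in ball (0 : ℂ) 1, |d.h t z * γ ((Λ.box i).symm (z, t))| * lap v z := by
    apply setIntegral_congr_fun measurableSet_ball
    intro z hz
    simp only
    rw [hme z hz]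
  rw [e1, e2] at key
  exact key

/-- positivity against nonnegative test functions supported in a box -/
lemma box_nonneg (TS : TestSys Λ μ) {i : Λ.ι} (d : Disint Λ μ i) (lam : ℝ) (hlam : 0 ≤ lam)
    (γ : M → ℝ) (hγ : Measurable γ) (hb : ∃ C, ∀ x, |γ x| ≤ C)
    (h : ∀ u ∈ TS.D, ∫ x, γ x * (lam * u x - TS.L u x) ∂μ = 0) {u : M → ℝ} (hu : u ∈ TS.D)
    (hu0 : ∀ x, 0 ≤ u x) (huc : IsCompact (tsupport u)) (hus : tsupport u ⊆ (Λ.box i).source) :
    0 ≤ ∫ x, |γ x| * (TS.L u x - lam * u x) ∂μ := by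
  set f : M → ℝ := fun x => |γ x| * (TS.L u x - lam * u x) with hf
  have hoff : ∀ x, x ∉ (Λ.box i).source → f x = 0 := by
    intro x hx
    have hx' : x ∉ tsupport u := fun h => hx (hus h)
    have h1 : u x = 0 := image_eq_zero_of_notMem_tsupport hx'
    have h2 : TS.L u x = 0 := by
      apply L_zero_of_eventually TS hu
      exact notMem_tsupport_iff_eventuallyEq.mp hx'
    simp only [hf, h1, h2]; ring
  have hfm : Measurable f := (_root_.continuous_abs.measurable.comp hγ).mul
    ((TS.L_meas u hu).sub (measurable_const.mul (TS.cont u hu).measurable))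
  have hfb : ∃ C, ∀ x, |f x| ≤ C := by
    obtain ⟨C, hC⟩ := hb
    obtain ⟨D1, hD1⟩ := TS.bdd u hu
    obtain ⟨D2, hD2⟩ := TS.L_bdd u hu
    refine ⟨|C| * (D2 + |lam| * D1), fun x => ?_⟩
    rw [hf]; simp only [abs_mul, abs_abs]
    apply mul_le_mul ((hC x).trans (le_abs_self C)) _ (abs_nonneg _) (abs_nonneg _)
    refine (abs_sub _ _).trans ?_
    rw [abs_mul]
    exact add_le_add (hD2 x) (mul_le_mul_of_nonneg_left (hD1 x) (abs_nonneg _))
  have h1 : ∫ x in (Λ.box i).source, f x ∂μ = ∫ x, f x ∂μ :=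
    setIntegral_eq_integral_of_forall_compl_eq_zero hoff
  rw [← h1, d.integral_eq f hfm hfb]
  apply integral_nonneg_of_ae
  filter_upwards [fibre_kato TS d lam hlam γ hγ hb h] with t ht
  obtain ⟨hg, hk⟩ := ht
  simp only [Pi.zero_apply]
  rw [hg.integral]
  -- the fibre of `u`
  set K1 : Set ℂ := (fun x => (Λ.box i x).1) '' tsupport u with hK1
  have hK1c : IsCompact K1 := by
    apply huc.image_of_continuousOn
    exact continuous_fst.comp_continuousOn ((Λ.box i).continuousOn.mono hus)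
  have hK1s : K1 ⊆ ball 0 1 := by
    rintro _ ⟨x, hx, rfl⟩
    exact (coord (hus hx)).1
  set v : ℂ → ℝ := (ball (0 : ℂ) 1).indicator (fun z => u ((Λ.box i).symm (z, t))) with hv
  have hvK : ∀ z ∉ K1, v z = 0 := by
    intro z hz
    by_cases hzb : z ∈ ball (0 : ℂ) 1
    · rw [hv, Set.indicator_of_mem hzb]
      by_contra hne
      apply hz
      refine ⟨(Λ.box i).symm (z, t), subset_tsupport _ hne, ?_⟩
      simp only
      rw [(Λ.box i).right_inv (mem_target hzb hg.1)]
    · rw [hv, Set.indicator_of_notMem hzb]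
  have hve : ∀ z ∈ ball (0 : ℂ) 1, v =ᶠ[𝓝 z] fun z => u ((Λ.box i).symm (z, t)) := by
    intro z hz
    filter_upwards [isOpen_ball.mem_nhds hz] with z' hz'
    rw [hv, Set.indicator_of_mem hz']
  have hvsm : ContDiff ℝ ∞ v := by
    rw [contDiff_iff_contDiffAt]
    intro z
    by_cases hz : z ∈ K1
    · exact (leaf_contDiffAt TS hu hg.1 (hK1s hz)).congr_of_eventuallyEq (hve z (hK1s hz))
    · have h2 : v =ᶠ[𝓝 z] fun _ => 0 := by
        filter_upwards [hK1c.isClosed.isOpen_compl.mem_nhds hz] with z' hz'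
        exact hvK z' hz'
      exact contDiffAt_const.congr_of_eventuallyEq h2
  have hvts : tsupport v ⊆ K1 := by
    apply closure_minimal _ hK1c.isClosed
    intro z hz
    by_contra hne
    exact hz (hvK z hne)
  have hvcs : HasCompactSupport v := HasCompactSupport.intro hK1c hvK
  have hv0 : ∀ z, 0 ≤ v z := by
    intro z
    rw [hv]
    exact Set.indicator_nonneg (fun z _ => hu0 _) z
  have key := hk v hvsm hvcs (hvts.trans hK1s) hv0
  -- integrability
  have hmi : IntegrableOn (fun z => |d.h t z * γ ((Λ.box i).symm (z, t))|) (ball (0 : ℂ) 1) := by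
    obtain ⟨C, hC⟩ := hb
    refine Integrable.mono' (hg.integrable_h.const_mul |C|) ?_ ?_
    · have h3 : Measurable (fun z => |d.h t z *
          (Λ.box i).target.indicator (fun p => γ ((Λ.box i).symm p)) (z, t)|) :=
        _root_.continuous_abs.measurable.comp
          (hg.2.1.mul ((measurable_ind i hγ).comp (by fun_prop)))
      refine h3.aestronglyMeasurable.congr ?_
      filter_upwards [ae_restrict_mem measurableSet_ball] with z hz
      simp only [Set.indicator_of_mem (mem_target (Λ := Λ) (i := i) hz hg.1)]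
    · filter_upwards [ae_restrict_mem measurableSet_ball] with z hz
      rw [Real.norm_eq_abs, abs_abs, abs_mul, abs_of_pos (hg.2.2.2.1 z hz), mul_comm]
      exact mul_le_mul_of_nonneg_right ((hC _).trans (le_abs_self C)) (hg.2.2.2.1 z hz).le
  obtain ⟨C1, hC1⟩ := hvsm.continuous.bounded_above_of_compact_support hvcs
  obtain ⟨C2, hC2⟩ := (Pool.Agent.H59.Nev.lap_continuous hvsm).bounded_above_of_compact_support
    (Pool.Agent.H59.Nev.lap_hcs hvsm hvcs)
  have hI1 : IntegrableOn (fun z => |d.h t z * γ ((Λ.box i).symm (z, t))| *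
      (Λ.ρ i (z, t) * v z)) (ball (0 : ℂ) 1) := by
    refine Integrable.mul_bdd (c := Λ.hi i * |C1|) hmi ?_ ?_
    · exact (((rho_cont_slice hg.1).mul
        hvsm.continuous.continuousOn).aestronglyMeasurable measurableSet_ball)
    · filter_upwards [ae_restrict_mem measurableSet_ball] with z hz
      rw [norm_mul, Real.norm_eq_abs, abs_of_pos (rho_pos hz hg.1)]
      exact mul_le_mul (Λ.ρ_hi i _ (mem_target hz hg.1)) ((hC1 z).trans (le_abs_self _))
        (norm_nonneg _) ((rho_pos hz hg.1).le.trans (Λ.ρ_hi i _ (mem_target hz hg.1)))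
  have hI2 : IntegrableOn (fun z => |d.h t z * γ ((Λ.box i).symm (z, t))| * lap v z)
      (ball (0 : ℂ) 1) := by
    refine Integrable.mul_bdd (c := C2) hmi ?_ ?_
    · exact (Pool.Agent.H59.Nev.lap_continuous hvsm).aestronglyMeasurable
    · exact Filter.Eventually.of_forall hC2
  have e1 : ∫ z in ball (0 : ℂ) 1, Λ.ρ i (z, t) * d.h t z * f ((Λ.box i).symm (z, t)) =
      (∫ z in ball (0 : ℂ) 1, |d.h t z * γ ((Λ.box i).symm (z, t))| * lap v z) -
        lam * ∫ z in ball (0 : ℂ) 1, |d.h t z * γ ((Λ.box i).symm (z, t))| *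
          (Λ.ρ i (z, t) * v z) := by
    rw [← integral_const_mul, ← integral_sub hI2 (hI1.const_mul lam)]
    apply setIntegral_congr_fun measurableSet_ball
    intro z hz
    simp only [hf]
    rw [lap_congr (hve z hz), TS.L_eq u hu i t hg.1 z hz, abs_mul,
      abs_of_pos (hg.2.2.2.1 z hz), (hve z hz).eq_of_nhds]
    ring
  rw [e1]
  linarith

/-- Q3b. Density of the range of `lam - L`. -/
theorem range_dense (TS : TestSys Λ μ)
    (dis : ∀ i, Disint Λ μ i) (lam : ℝ) (hlam : 0 < lam) (γ : M → ℝ) (hγ : Measurable γ)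
    (hb : ∃ C, ∀ x, |γ x| ≤ C)
    (h : ∀ u ∈ TS.D, ∫ x, γ x * (lam * u x - TS.L u x) ∂μ = 0) : γ =ᵐ[μ] 0 := by
  obtain ⟨C, hC⟩ := id hb
  have hγa : Measurable (fun x => |γ x|) := _root_.continuous_abs.measurable.comp hγ
  have hLi : ∀ u ∈ TS.D, Integrable (TS.L u) μ := by
    intro u hu
    obtain ⟨D, hD⟩ := TS.L_bdd u hu
    exact Integrable.of_bound (TS.L_meas u hu).aestronglyMeasurable D
      (Filter.Eventually.of_forall fun x => by simpa using hD x)
  have hui : ∀ u ∈ TS.D, Integrable u μ := by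
    intro u hu
    obtain ⟨D, hD⟩ := TS.bdd u hu
    exact Integrable.of_bound (TS.cont u hu).measurable.aestronglyMeasurable D
      (Filter.Eventually.of_forall fun x => by simpa using hD x)
  have hgi : ∀ g : M → ℝ, Integrable g μ → Integrable (fun x => |γ x| * g x) μ := by
    intro g hg
    refine hg.bdd_mul (c := C) hγa.aestronglyMeasurable ?_
    exact Filter.Eventually.of_forall fun x => by simpa using hC x
  -- the inequality for χ n
  have hχ : ∀ n, lam * ∫ x, |γ x| * TS.χ n x ∂μ ≤ ∫ x, |γ x| * TS.L (TS.χ n) x ∂μ := by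
    intro n
    obtain ⟨K, hKc, hKs, hK0⟩ := TS.χ_supp n
    obtain ⟨N, η, j, hη, hsum⟩ := TS.pou K hKc hKs
    set w : Fin N → M → ℝ := fun k x => TS.χ n x * η k x with hw
    have hwD : ∀ k, w k ∈ TS.D := fun k => TS.mul _ (TS.χ_mem n) _ (hη k).1
    have hdec : TS.χ n = fun x => ∑ k ∈ Finset.univ, w k x := by
      ext x
      simp only [hw, ← Finset.mul_sum]
      by_cases hx : x ∈ K
      · rw [hsum x hx, mul_one]
      · rw [hK0 x hx, zero_mul]
    have hpos : ∀ k, 0 ≤ ∫ x, |γ x| * (TS.L (w k) x - lam * w k x) ∂μ := by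
      intro k
      have hts : tsupport (w k) ⊆ tsupport (η k) := tsupport_mul_subset_right
      refine box_nonneg TS (dis (j k)) lam hlam.le γ hγ hb h (hwD k) ?_ ?_ ?_
      · exact fun x => mul_nonneg (TS.χ_range n x).1 ((hη k).2.1 x)
      · exact (hη k).2.2.1.of_isClosed_subset (isClosed_tsupport _) hts
      · exact hts.trans (hη k).2.2.2
    have hL : ∀ x, TS.L (TS.χ n) x = ∑ k, TS.L (w k) x := by
      intro x
      conv_lhs => rw [hdec]
      exact (L_sum TS w hwD Finset.univ).2 x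
    have h1 : ∫ x, |γ x| * TS.L (TS.χ n) x ∂μ - lam * ∫ x, |γ x| * TS.χ n x ∂μ =
        ∑ k, ∫ x, |γ x| * (TS.L (w k) x - lam * w k x) ∂μ := by
      rw [← integral_finset_sum, ← integral_const_mul, ← integral_sub]
      · apply integral_congr_ae
        refine Filter.Eventually.of_forall fun x => ?_
        simp only
        rw [hL x, ← Finset.mul_sum, Finset.sum_sub_distrib, ← Finset.mul_sum]
        have := congrFun hdec x
        rw [← this]
        ring
      · exact hgi _ (hLi _ (TS.χ_mem n))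
      · exact (hgi _ (hui _ (TS.χ_mem n))).const_mul lam
      · intro k _
        exact hgi _ ((hLi _ (hwD k)).sub ((hui _ (hwD k)).const_mul lam))
    have h2 : 0 ≤ ∑ k, ∫ x, |γ x| * (TS.L (w k) x - lam * w k x) ∂μ :=
      Finset.sum_nonneg fun k _ => hpos k
    linarith
  -- limits
  have hlim0 : Tendsto (fun n => ∫ x, |γ x| * TS.L (TS.χ n) x ∂μ) atTop (𝓝 0) := by
    have h1 : Tendsto (fun n => |C| * ∫ x, |TS.L (TS.χ n) x| ∂μ) atTop (𝓝 0) := by
      simpa using TS.χ_int.const_mul |C|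
    refine squeeze_zero_norm (fun n => ?_) h1
    refine (norm_integral_le_integral_norm _).trans ?_
    rw [← integral_const_mul]
    refine integral_mono_of_nonneg (Filter.Eventually.of_forall fun x => norm_nonneg _)
      ((hLi _ (TS.χ_mem n)).abs.const_mul _) (Filter.Eventually.of_forall fun x => ?_)
    simp only [norm_mul, Real.norm_eq_abs, abs_abs]
    exact mul_le_mul_of_nonneg_right ((hC x).trans (le_abs_self C)) (abs_nonneg _)
  have hae : ∀ᵐ x ∂μ, x ∈ Λ.reg := by
    rw [ae_iff]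
    exact TS.reg_full
  have hlim1 : Tendsto (fun n => ∫ x, |γ x| * TS.χ n x ∂μ) atTop (𝓝 (∫ x, |γ x| ∂μ)) := by
    refine tendsto_integral_of_dominated_convergence (fun _ => |C|) ?_ (integrable_const _) ?_ ?_
    · intro n
      exact (hγa.mul (TS.cont _ (TS.χ_mem n)).measurable).aestronglyMeasurable
    · intro n
      refine Filter.Eventually.of_forall fun x => ?_
      rw [norm_mul, Real.norm_eq_abs, Real.norm_eq_abs, abs_abs]
      have h1 : |TS.χ n x| ≤ 1 := by
        rw [abs_of_nonneg (TS.χ_range n x).1]; exact (TS.χ_range n x).2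
      calc |γ x| * |TS.χ n x| ≤ |C| * 1 :=
            mul_le_mul ((hC x).trans (le_abs_self C)) h1 (abs_nonneg _) (abs_nonneg _)
        _ = |C| := mul_one _
    · filter_upwards [hae] with x hx
      simpa using (TS.χ_tendsto x hx).const_mul |γ x|
  have hfin : lam * ∫ x, |γ x| ∂μ ≤ 0 :=
    le_of_tendsto_of_tendsto' (hlim1.const_mul lam) hlim0 hχ
  have h0 : ∫ x, |γ x| ∂μ = 0 := by
    apply le_antisymm
    · by_contra hne
      push Not at hne
      have := mul_pos hlam hne
      linarith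
    · exact integral_nonneg fun x => abs_nonneg _
  have hγi : Integrable (fun x => |γ x|) μ :=
    Integrable.of_bound hγa.aestronglyMeasurable C
      (Filter.Eventually.of_forall fun x => by simpa using hC x)
  have h1 := (integral_eq_zero_iff_of_nonneg (fun x => abs_nonneg (γ x)) hγi).mp h0
  filter_upwards [h1] with x hx
  simpa using hx

end main

end Pool.Agent.H60.Nev
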